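import Mathlib

set_option autoImplicit false
open FirstOrder Language Relation

namespace Pool.Agent.Results.MP_a6fba8_lc.NotModular

/-- A conditional rewrite rule `u₁ ↓ v₁ ∧ ... ∧ u_k ↓ v_k ⇒ lhs → rhs` over the signature `L`
(terms over `L` with variables indexed by `ℕ`); `conds` is the list of the pairs `(u_i, v_i)`. -/
structure Rule (L : FirstOrder.Language.{0, 0}) where
  lhs : L.Term ℕ
  rhs : L.Term ℕ
  conds : List (L.Term ℕ × L.Term ℕ)

/-- A (join) conditional term rewriting system: a set of rules whose left-hand sides are not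
variables. -/
structure CTRS (L : FirstOrder.Language.{0, 0}) where
  rules : Set (Rule L)
  lhs_not_var : ∀ ρ ∈ rules, ∀ n, ρ.lhs ≠ Term.var n

/-- One rewrite step (an instance of a rule inside a context), where the instantiated conditions
are tested with the relation `J`. -/
inductive StepWith {L : FirstOrder.Language.{0, 0}} (R : CTRS L) (J : L.Term ℕ → L.Term ℕ → Prop) :
    L.Term ℕ → L.Term ℕ → Prop
  | root (ρ : Rule L) (hρ : ρ ∈ R.rules) (σ : ℕ → L.Term ℕ)
      (h : ∀ c ∈ ρ.conds, J (c.1.subst σ) (c.2.subst σ)) :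
      StepWith R J (ρ.lhs.subst σ) (ρ.rhs.subst σ)
  | arg {k : ℕ} (f : L.Functions k) (ts : Fin k → L.Term ℕ) (i : Fin k) (t' : L.Term ℕ)
      (h : StepWith R J (ts i) t') :
      StepWith R J (Term.func f ts) (Term.func f (Function.update ts i t'))

/-- The levels `→_{R_n}`: `→_{R_0} = ∅`, and `→_{R_{n+1}}` applies the rules whose instantiated
conditions `u ↓ v` hold with respect to `→_{R_n}^*`. -/
def Level {L : FirstOrder.Language.{0, 0}} (R : CTRS L) : ℕ → L.Term ℕ → L.Term ℕ → Prop
  | 0 => fun _ _ => False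
  | n + 1 => StepWith R (Join (ReflTransGen (Level R n)))

/-- The rewrite relation `→_R = ⋃ₙ →_{R_n}`. -/
def Rew {L : FirstOrder.Language.{0, 0}} (R : CTRS L) (s t : L.Term ℕ) : Prop := ∃ n, Level R n s t

/-- Normal forms. -/
def IsNF {L : FirstOrder.Language.{0, 0}} (R : CTRS L) (t : L.Term ℕ) : Prop := ∀ t', ¬ Rew R t t'

/-- Unique normal forms: convertible normal forms are identical. -/
def UN {L : FirstOrder.Language.{0, 0}} (R : CTRS L) : Prop :=
  ∀ s t, IsNF R s → IsNF R t → EqvGen (Rew R) s t → s = t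

/-- Transport of a rule along a map of signatures. -/
def Rule.map {L L' : FirstOrder.Language.{0, 0}} (φ : L →ᴸ L') (ρ : Rule L) : Rule L' :=
  ⟨φ.onTerm ρ.lhs, φ.onTerm ρ.rhs, ρ.conds.map (fun c => (φ.onTerm c.1, φ.onTerm c.2))⟩

lemma onTerm_ne_var {L L' : FirstOrder.Language.{0, 0}} (φ : L →ᴸ L') (t : L.Term ℕ)
    (h : ∀ n, t ≠ Term.var n) : ∀ n, φ.onTerm t ≠ Term.var n := by
  intro n hn
  cases t with
  | var m => exact h m rfl
  | func f ts => simp [LHom.onTerm] at hn

/-- The disjoint union of two systems, over the disjoint union of the signatures. -/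
def CTRS.union {L L' : FirstOrder.Language.{0, 0}} (R : CTRS L) (S : CTRS L') : CTRS (L.sum L') where
  rules := Rule.map LHom.sumInl '' R.rules ∪ Rule.map LHom.sumInr '' S.rules
  lhs_not_var := by
    rintro ρ (⟨ρ', h, rfl⟩ | ⟨ρ', h, rfl⟩)
    · exact onTerm_ne_var _ _ (R.lhs_not_var ρ' h)
    · exact onTerm_ne_var _ _ (S.lhs_not_var ρ' h)

/-- No extra variables: all variables of the right-hand side and of the conditions occur in the
left-hand side. -/
def NoExtraVars {L : FirstOrder.Language.{0, 0}} (R : CTRS L) : Prop :=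
  ∀ ρ ∈ R.rules, ρ.rhs.varFinset ⊆ ρ.lhs.varFinset ∧
    ∀ c ∈ ρ.conds, c.1.varFinset ⊆ ρ.lhs.varFinset ∧ c.2.varFinset ⊆ ρ.lhs.varFinset

/-! ### helpers -/

section helpers

variable {L L' : FirstOrder.Language.{0, 0}}

def mk0 (f : L.Functions 0) : L.Term ℕ := Term.func f ![]
def mk1 (f : L.Functions 1) (t : L.Term ℕ) : L.Term ℕ := Term.func f ![t]
def mk3 (f : L.Functions 3) (t s r : L.Term ℕ) : L.Term ℕ := Term.func f ![t, s, r]

@[simp] lemma subst_mk0 (f : L.Functions 0) (σ : ℕ → L.Term ℕ) :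
    (mk0 f).subst σ = mk0 f := by
  simp only [mk0, Term.subst]
  congr 1
  exact Subsingleton.elim _ _

@[simp] lemma subst_mk1 (f : L.Functions 1) (t : L.Term ℕ) (σ : ℕ → L.Term ℕ) :
    (mk1 f t).subst σ = mk1 f (t.subst σ) := by
  simp only [mk1, Term.subst]
  congr 1
  funext i
  fin_cases i
  rfl

@[simp] lemma subst_mk3 (f : L.Functions 3) (t s r : L.Term ℕ) (σ : ℕ → L.Term ℕ) :
    (mk3 f t s r).subst σ = mk3 f (t.subst σ) (s.subst σ) (r.subst σ) := by
  simp only [mk3, Term.subst]
  congr 1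
  funext i
  fin_cases i <;> rfl

@[simp] lemma subst_var (n : ℕ) (σ : ℕ → L.Term ℕ) :
    (Term.var n : L.Term ℕ).subst σ = σ n := rfl

@[simp] lemma onTerm_mk0 (φ : L →ᴸ L') (f : L.Functions 0) :
    φ.onTerm (mk0 f) = mk0 (φ.onFunction f) := by
  simp only [mk0, LHom.onTerm]
  congr 1
  exact Subsingleton.elim _ _

@[simp] lemma onTerm_mk1 (φ : L →ᴸ L') (f : L.Functions 1) (t : L.Term ℕ) :
    φ.onTerm (mk1 f t) = mk1 (φ.onFunction f) (φ.onTerm t) := by
  simp only [mk1, LHom.onTerm]
  congr 1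
  funext i
  fin_cases i
  rfl

@[simp] lemma onTerm_mk3 (φ : L →ᴸ L') (f : L.Functions 3) (t s r : L.Term ℕ) :
    φ.onTerm (mk3 f t s r) = mk3 (φ.onFunction f) (φ.onTerm t) (φ.onTerm s) (φ.onTerm r) := by
  simp only [mk3, LHom.onTerm]
  congr 1
  funext i
  fin_cases i <;> rfl

@[simp] lemma onTerm_var (φ : L →ᴸ L') (n : ℕ) :
    φ.onTerm (Term.var n : L.Term ℕ) = Term.var n := rfl

/-- Head symbol. -/
def head : L.Term ℕ → Option (Σ k, L.Functions k)
  | .var _ => none
  | .func f _ => some ⟨_, f⟩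

@[simp] lemma head_mk0 (f : L.Functions 0) : head (mk0 f) = some ⟨0, f⟩ := rfl
@[simp] lemma head_mk1 (f : L.Functions 1) (t : L.Term ℕ) : head (mk1 f t) = some ⟨1, f⟩ := rfl
@[simp] lemma head_mk3 (f : L.Functions 3) (t s r : L.Term ℕ) :
    head (mk3 f t s r) = some ⟨3, f⟩ := rfl

lemma eq_mk0 (f : L.Functions 0) (t : L.Term ℕ) (h : head t = some ⟨0, f⟩) : t = mk0 f := by
  cases t with
  | var n => simp [head] at h
  | func g ts =>
    simp only [head, Option.some.injEq] at h
    cases h
    simp only [mk0]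
    congr 1
    exact Subsingleton.elim _ _

end helpers

/-! ### The first system -/

inductive F1 : ℕ → Type
  | a : F1 0
  | b : F1 0
  | u : F1 0
  | v : F1 0
  | w : F1 0
  | B : F1 0
  | C : F1 0
  | A : F1 1

abbrev L1 : FirstOrder.Language.{0, 0} := ⟨F1, fun _ => Empty⟩

abbrev c (f : F1 0) : L1.Term ℕ := mk0 (L := L1) f

def R1 : CTRS L1 where
  rules := {⟨c .a, c .u, []⟩, ⟨c .a, c .w, []⟩, ⟨c .b, c .w, []⟩, ⟨c .b, c .v, []⟩,
    ⟨c .u, c .u, []⟩, ⟨c .v, c .v, []⟩, ⟨c .w, c .w, []⟩,
    ⟨mk1 (L := L1) .A (.var 0), c .C, []⟩,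
    ⟨mk1 (L := L1) .A (.var 0), c .B, [(.var 0, c .u), (.var 0, c .v)]⟩}
  lhs_not_var := by
    intro ρ hρ n
    simp only [Set.mem_insert_iff, Set.mem_singleton_iff] at hρ
    rcases hρ with rfl | rfl | rfl | rfl | rfl | rfl | rfl | rfl | rfl <;>
      simp [mk0, mk1]

def phiF : ∀ {k : ℕ}, F1 k → ℕ ⊕ ℕ
  | _, .a => .inl 0
  | _, .b => .inl 0
  | _, .u => .inl 0
  | _, .v => .inl 0
  | _, .w => .inl 0
  | _, .B => .inl 1
  | _, .C => .inl 2
  | _, .A => .inl 2

def phi : L1.Term ℕ → ℕ ⊕ ℕ
  | .var n => .inr n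
  | .func f _ => phiF f

lemma back1 (J : L1.Term ℕ → L1.Term ℕ → Prop) (s t : L1.Term ℕ) (h : StepWith R1 J s t) :
    (head t = some ⟨0, F1.u⟩ → head s = some ⟨0, F1.a⟩ ∨ head s = some ⟨0, F1.u⟩) ∧
    (head t = some ⟨0, F1.v⟩ → head s = some ⟨0, F1.b⟩ ∨ head s = some ⟨0, F1.v⟩) ∧
    (head t ≠ some ⟨0, F1.a⟩) ∧ (head t ≠ some ⟨0, F1.b⟩) ∧
    (head s = some ⟨0, F1.u⟩ → head t = some ⟨0, F1.u⟩) ∧
    (head s = some ⟨0, F1.v⟩ → head t = some ⟨0, F1.v⟩) := by
  cases h with
  | root ρ hρ σ h =>
    simp only [R1, Set.mem_insert_iff, Set.mem_singleton_iff] at hρ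
    rcases hρ with rfl | rfl | rfl | rfl | rfl | rfl | rfl | rfl | rfl <;>
      simp
  | arg f ts i t' h =>
    have key : ∀ g : F1 0, head (Term.func f (Function.update ts i t')) ≠ some ⟨0, g⟩ ∧
        head (Term.func f ts) ≠ some ⟨0, g⟩ := by
      intro g
      constructor <;>
      · intro h
        simp only [head, Option.some.injEq] at h
        cases h
        exact i.elim0
    refine ⟨fun h => absurd h (key _).1, fun h => absurd h (key _).1, (key _).1, (key _).1,
      fun h => absurd h (key _).2, fun h => absurd h (key _).2⟩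

lemma back1' (n : ℕ) (s t : L1.Term ℕ) (h : Level R1 n s t) :
    (head t = some ⟨0, F1.u⟩ → head s = some ⟨0, F1.a⟩ ∨ head s = some ⟨0, F1.u⟩) ∧
    (head t = some ⟨0, F1.v⟩ → head s = some ⟨0, F1.b⟩ ∨ head s = some ⟨0, F1.v⟩) ∧
    (head t ≠ some ⟨0, F1.a⟩) ∧ (head t ≠ some ⟨0, F1.b⟩) ∧
    (head s = some ⟨0, F1.u⟩ → head t = some ⟨0, F1.u⟩) ∧
    (head s = some ⟨0, F1.v⟩ → head t = some ⟨0, F1.v⟩) := by
  cases n with
  | zero => exact absurd h id
  | succ n => exact back1 _ s t h

lemma cond_false (n : ℕ) (x : L1.Term ℕ) (h1 : Join (ReflTransGen (Level R1 n)) x (c .u))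
    (h2 : Join (ReflTransGen (Level R1 n)) x (c .v)) : False := by
  obtain ⟨y, hy1, hy2⟩ := h1
  obtain ⟨z, hz1, hz2⟩ := h2
  have hy : head y = some ⟨0, F1.u⟩ := by
    clear hy1
    induction hy2 with
    | refl => rfl
    | tail _ hbc ih => exact (back1' n _ _ hbc).2.2.2.2.1 ih
  have hz : head z = some ⟨0, F1.v⟩ := by
    clear hz1
    induction hz2 with
    | refl => rfl
    | tail _ hbc ih => exact (back1' n _ _ hbc).2.2.2.2.2 ih
  have hx1 : head x = some ⟨0, F1.a⟩ ∨ head x = some ⟨0, F1.u⟩ := by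
    clear hy2 hz1 hz2
    induction hy1 using ReflTransGen.head_induction_on with
    | refl => exact Or.inr hy
    | head hab _ ih =>
      rcases ih with ih | ih
      · exact absurd ih (back1' n _ _ hab).2.2.1
      · exact (back1' n _ _ hab).1 ih
  have hx2 : head x = some ⟨0, F1.b⟩ ∨ head x = some ⟨0, F1.v⟩ := by
    clear hy1 hy2 hz2 hx1
    induction hz1 using ReflTransGen.head_induction_on with
    | refl => exact Or.inr hz
    | head hab _ ih =>
      rcases ih with ih | ih
      · exact absurd ih (back1' n _ _ hab).2.2.2.1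
      · exact (back1' n _ _ hab).2.1 ih
  rcases hx1 with hx1 | hx1 <;> rcases hx2 with hx2 | hx2 <;> rw [hx1] at hx2 <;> simp at hx2

lemma phi_eq (n : ℕ) (s t : L1.Term ℕ) (h : Level R1 n s t) : phi s = phi t := by
  cases n with
  | zero => exact absurd h id
  | succ n =>
    cases h with
    | root ρ hρ σ h =>
      simp only [R1, Set.mem_insert_iff, Set.mem_singleton_iff] at hρ
      rcases hρ with rfl | rfl | rfl | rfl | rfl | rfl | rfl | rfl | rfl
      iterate 8 rfl
      · exfalso
        have h1 := h (.var 0, c .u) (by simp)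
        have h2 := h (.var 0, c .v) (by simp)
        simp only [subst_mk0] at h1 h2
        exact cond_false n _ h1 h2
    | arg f ts i t' h => rfl

lemma level1_of_rule {L : FirstOrder.Language.{0, 0}} (R : CTRS L) (l r : L.Term ℕ)
    (h : (⟨l, r, []⟩ : Rule L) ∈ R.rules) (σ : ℕ → L.Term ℕ) :
    Level R 1 (l.subst σ) (r.subst σ) := by
  exact StepWith.root (J := Join (ReflTransGen (Level R 0))) _ h σ (by simp)

lemma step_const (f g : F1 0) (h : (⟨c f, c g, []⟩ : Rule L1) ∈ R1.rules) : Rew R1 (c f) (c g) := by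
  refine ⟨1, ?_⟩
  have := level1_of_rule R1 (c f) (c g) h (fun n => Term.var n)
  simpa using this

lemma nf1 (s : L1.Term ℕ) (h : IsNF R1 s) : (∃ n, s = .var n) ∨ s = c .B ∨ s = c .C := by
  cases s with
  | var n => exact Or.inl ⟨n, rfl⟩
  | @func k f ts =>
    right
    have key : ∀ g : F1 0, head (Term.func (L := L1) f ts) = some ⟨0, g⟩ →
        Term.func (L := L1) f ts = c g := fun g hg => eq_mk0 (L := L1) g _ hg
    cases f with
    | a =>
      exfalso
      rw [key .a rfl] at h
      exact h _ (step_const .a .u (by simp [R1]))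
    | b =>
      exfalso
      rw [key .b rfl] at h
      exact h _ (step_const .b .w (by simp [R1]))
    | u =>
      exfalso
      rw [key .u rfl] at h
      exact h _ (step_const .u .u (by simp [R1]))
    | v =>
      exfalso
      rw [key .v rfl] at h
      exact h _ (step_const .v .v (by simp [R1]))
    | w =>
      exfalso
      rw [key .w rfl] at h
      exact h _ (step_const .w .w (by simp [R1]))
    | B => exact Or.inl (key .B rfl)
    | C => exact Or.inr (key .C rfl)
    | A =>
      exfalso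
      have h1 := level1_of_rule R1 (mk1 (L := L1) .A (.var 0)) (c .C) (by simp [R1]) (fun _ => ts 0)
      have h2 : (Term.func (L := L1) F1.A ts : L1.Term ℕ) = mk1 (L := L1) F1.A (ts 0) := by
        simp only [mk1]
        congr 1
        funext i
        fin_cases i
        rfl
      rw [h2] at h
      refine h (c .C) ⟨1, ?_⟩
      simpa using h1

lemma eqv_const {α β : Type} {r : α → α → Prop} (φ : α → β) (h : ∀ x y, r x y → φ x = φ y)
    {x y : α} (hxy : EqvGen r x y) : φ x = φ y := by
  induction hxy with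
  | rel _ _ h' => exact h _ _ h'
  | refl _ => rfl
  | symm _ _ _ ih => exact ih.symm
  | trans _ _ _ _ _ ih1 ih2 => exact ih1.trans ih2

lemma UN_R1 : UN R1 := by
  intro s t hs ht hst
  have hphi : phi s = phi t := eqv_const phi (fun x y ⟨n, hn⟩ => phi_eq n x y hn) hst
  rcases nf1 s hs with ⟨n, rfl⟩ | rfl | rfl <;> rcases nf1 t ht with ⟨m, rfl⟩ | rfl | rfl <;>
    first
    | rfl
    | (simp [phi, mk0, phiF] at hphi; try (rw [hphi]))

/-! ### The second system -/

inductive F2 : ℕ → Type
  | m : F2 3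

abbrev L2 : FirstOrder.Language.{0, 0} := ⟨F2, fun _ => Empty⟩

def R2 : CTRS L2 where
  rules := {⟨mk3 (L := L2) .m (.var 0) (.var 1) (.var 1), .var 0, []⟩,
    ⟨mk3 (L := L2) .m (.var 0) (.var 0) (.var 1), .var 1, []⟩}
  lhs_not_var := by
    intro ρ hρ n
    simp only [Set.mem_insert_iff, Set.mem_singleton_iff] at hρ
    rcases hρ with rfl | rfl <;> simp [mk3]

open Classical in
noncomputable def nfF : ∀ {k : ℕ}, F2 k → (Fin k → L2.Term ℕ) → L2.Term ℕ
  | _, .m, ts => if ts 1 = ts 2 then ts 0 else if ts 0 = ts 1 then ts 2 else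
      Term.func (L := L2) F2.m ts

noncomputable def nf : L2.Term ℕ → L2.Term ℕ
  | .var n => .var n
  | .func f ts => nfF f (fun i => nf (ts i))

lemma nf_mk3 (t s r : L2.Term ℕ) : nf (mk3 (L := L2) .m t s r) =
    nfF F2.m ![nf t, nf s, nf r] := by
  simp only [mk3, nf]
  congr 1
  funext i
  fin_cases i <;> rfl

lemma nf_step (J : L2.Term ℕ → L2.Term ℕ → Prop) (s t : L2.Term ℕ) (h : StepWith R2 J s t) :
    nf s = nf t := by
  induction h with
  | root ρ hρ σ h =>
    simp only [R2, Set.mem_insert_iff, Set.mem_singleton_iff] at hρ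
    rcases hρ with rfl | rfl
    · simp only [subst_mk3, subst_var]
      rw [nf_mk3]
      simp [nfF]
    · simp only [subst_mk3, subst_var]
      rw [nf_mk3]
      simp only [nfF]
      split_ifs with h1
      · simpa using h1
      · rfl
      · simp_all
  | arg f ts i t' h ih =>
    simp only [nf]
    congr 1
    funext j
    by_cases hj : j = i
    · subst hj
      simp [ih]
    · simp [Function.update_of_ne hj]

lemma isNF_arg {L : FirstOrder.Language.{0, 0}} (R : CTRS L) {k : ℕ} (f : L.Functions k)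
    (ts : Fin k → L.Term ℕ) (h : IsNF R (Term.func f ts)) (i : Fin k) : IsNF R (ts i) := by
  rintro t' ⟨n, hn⟩
  cases n with
  | zero => exact hn
  | succ n => exact h _ ⟨n + 1, StepWith.arg f ts i t' hn⟩

lemma nf_eq (t : L2.Term ℕ) (h : IsNF R2 t) : nf t = t := by
  induction t with
  | var n => rfl
  | @func k f ts ih =>
    have ih' : ∀ i, nf (ts i) = ts i := fun i => ih i (isNF_arg R2 f ts h i)
    simp only [nf, ih']
    cases f with
    | m =>
      have h3 : (Term.func (L := L2) F2.m ts : L2.Term ℕ) =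
          mk3 (L := L2) F2.m (ts 0) (ts 1) (ts 2) := by
        simp only [mk3]
        congr 1
        funext i
        fin_cases i <;> rfl
      simp only [nfF]
      split_ifs with h1 h2
      · exfalso
        rw [h3] at h
        refine h (ts 0) ⟨1, ?_⟩
        have h4 := level1_of_rule R2 (mk3 (L := L2) .m (.var 0) (.var 1) (.var 1)) (.var 0)
          (by simp [R2]) (fun n => if n = 0 then ts 0 else ts 1)
        simp only [subst_mk3, subst_var] at h4
        rw [← h1]
        simpa using h4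
      · exfalso
        rw [h3] at h
        refine h (ts 2) ⟨1, ?_⟩
        have h4 := level1_of_rule R2 (mk3 (L := L2) .m (.var 0) (.var 0) (.var 1)) (.var 1)
          (by simp [R2]) (fun n => if n = 0 then ts 0 else ts 2)
        simp only [subst_mk3, subst_var] at h4
        rw [← h2]
        simpa using h4
      · rfl

lemma UN_R2 : UN R2 := by
  intro s t hs ht hst
  have h := eqv_const nf (r := Rew R2) (fun x y ⟨n, hn⟩ => by
    cases n with
    | zero => exact absurd hn id
    | succ n => exact nf_step _ x y hn) hst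
  rwa [nf_eq s hs, nf_eq t ht] at h

/-! ### The union -/

abbrev U : CTRS (L1.sum L2) := R1.union R2

abbrev LU : FirstOrder.Language.{0, 0} := L1.sum L2

abbrev d (f : F1 0) : LU.Term ℕ := mk0 (L := LU) (Sum.inl f)
abbrev fA (t : LU.Term ℕ) : LU.Term ℕ := mk1 (L := LU) (Sum.inl F1.A) t
abbrev fm (t s r : LU.Term ℕ) : LU.Term ℕ := mk3 (L := LU) (Sum.inr F2.m) t s r

lemma mem_U_left (ρ : Rule L1) (h : ρ ∈ R1.rules) : ρ.map LHom.sumInl ∈ U.rules :=
  Or.inl ⟨ρ, h, rfl⟩

lemma mem_U_right (ρ : Rule L2) (h : ρ ∈ R2.rules) : ρ.map LHom.sumInr ∈ U.rules :=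
  Or.inr ⟨ρ, h, rfl⟩

lemma level1_U (f : LU.Term ℕ) (g : LU.Term ℕ) (l r : LU.Term ℕ) (σ : ℕ → LU.Term ℕ)
    (h : (⟨l, r, []⟩ : Rule LU) ∈ U.rules) (hl : l.subst σ = f) (hr : r.subst σ = g) :
    Level U 1 f g := by
  have := level1_of_rule U _ _ h σ
  rwa [hl, hr] at this

lemma U_const (f g : F1 0) (h : (⟨c f, c g, []⟩ : Rule L1) ∈ R1.rules) :
    Level U 1 (d f) (d g) := by
  have h1 := mem_U_left _ h
  simp only [Rule.map, List.map_nil, onTerm_mk0] at h1
  exact level1_U _ _ _ _ (fun n => Term.var n) h1 (subst_mk0 (L := LU) _ _)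
    (subst_mk0 (L := LU) _ _)

def projL : (Σ k, LU.Functions k) → Option (Σ k, L1.Functions k)
  | ⟨k, Sum.inl f⟩ => some ⟨k, f⟩
  | ⟨_, Sum.inr _⟩ => none

lemma nf_const (g : F1 0) (hg : ∀ ρ ∈ R1.rules, head ρ.lhs ≠ some ⟨0, g⟩) : IsNF U (d g) := by
  rintro t' ⟨n, hn⟩
  cases n with
  | zero => exact hn
  | succ n =>
    have key : ∀ s, StepWith U (Join (ReflTransGen (Level U n))) s t' →
        head s ≠ some ⟨0, Sum.inl g⟩ := by
      intro s h
      cases h with
      | root ρ hρ σ h =>
        rcases hρ with ⟨ρ', h', rfl⟩ | ⟨ρ', h', rfl⟩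
        · intro hh
          apply hg ρ' h'
          cases hl : ρ'.lhs with
          | var n => exact absurd hl (R1.lhs_not_var ρ' h' n)
          | func f ts =>
            simp only [Rule.map, hl] at hh
            have h2 := congrArg (fun o => Option.bind o projL) hh
            exact h2
        · intro hh
          have h2 := congrArg (fun o => Option.bind o projL) hh
          simp only [R2, Set.mem_insert_iff, Set.mem_singleton_iff] at h'
          rcases h' with rfl | rfl
          · exact absurd (show (none : Option (Σ k, L1.Functions k)) = some ⟨0, g⟩ from h2)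
              (by simp)
          · exact absurd (show (none : Option (Σ k, L1.Functions k)) = some ⟨0, g⟩ from h2)
              (by simp)
      | arg f ts i t' h =>
        intro hh
        simp only [head, Option.some.injEq] at hh
        cases hh
        exact i.elim0
    exact key _ hn rfl

/-- The critical element. -/
abbrev X : LU.Term ℕ := fm (d .a) (d .w) (d .b)

lemma stepX1 : Level U 1 X (fm (d .a) (d .w) (d .w)) := by
  have h := U_const .b .w (by simp [R1])
  have h2 := StepWith.arg (R := U) (J := Join (ReflTransGen (Level U 0)))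
    (k := 3) (Sum.inr F2.m) ![d .a, d .w, d .b] 2 (d .w) h
  have h3 : Function.update ![d .a, d .w, d .b] (2 : Fin 3) (d .w) =
      ![d .a, d .w, d .w] := by
    funext i
    fin_cases i <;> rfl
  rw [h3] at h2
  exact h2

lemma stepX2 : Level U 1 X (fm (d .w) (d .w) (d .b)) := by
  have h := U_const .a .w (by simp [R1])
  have h2 := StepWith.arg (R := U) (J := Join (ReflTransGen (Level U 0)))
    (k := 3) (Sum.inr F2.m) ![d .a, d .w, d .b] 0 (d .w) h
  have h3 : Function.update ![d .a, d .w, d .b] (0 : Fin 3) (d .w) =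
      ![d .w, d .w, d .b] := by
    funext i
    fin_cases i <;> rfl
  rw [h3] at h2
  exact h2

lemma stepX3 : Level U 1 (fm (d .a) (d .w) (d .w)) (d .a) := by
  have h1 := mem_U_right ⟨mk3 (L := L2) .m (.var 0) (.var 1) (.var 1), .var 0, []⟩ (by simp [R2])
  simp only [Rule.map, List.map_nil, onTerm_mk3, onTerm_var] at h1
  refine level1_U _ _ _ _ (fun n => if n = 0 then d .a else d .w) h1 ?_ rfl
  exact subst_mk3 (L := LU) _ _ _ _ _

lemma stepX4 : Level U 1 (fm (d .w) (d .w) (d .b)) (d .b) := by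
  have h1 := mem_U_right ⟨mk3 (L := L2) .m (.var 0) (.var 0) (.var 1), .var 1, []⟩ (by simp [R2])
  simp only [Rule.map, List.map_nil, onTerm_mk3, onTerm_var] at h1
  refine level1_U _ _ _ _ (fun n => if n = 0 then d .w else d .b) h1 ?_ rfl
  exact subst_mk3 (L := LU) _ _ _ _ _

lemma X_u : ReflTransGen (Level U 1) X (d .u) :=
  ((ReflTransGen.single stepX1).tail stepX3).tail (U_const .a .u (by simp [R1]))

lemma X_v : ReflTransGen (Level U 1) X (d .v) :=
  ((ReflTransGen.single stepX2).tail stepX4).tail (U_const .b .v (by simp [R1]))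

lemma step_C : Level U 1 (fA X) (d .C) := by
  have h1 := mem_U_left ⟨mk1 (L := L1) .A (.var 0), c .C, []⟩ (by simp [R1])
  simp only [Rule.map, List.map_nil, onTerm_mk1, onTerm_mk0, onTerm_var] at h1
  exact level1_U _ _ _ _ (fun n => X) h1 (subst_mk1 (L := LU) _ _ _) (subst_mk0 (L := LU) _ _)

lemma step_B : Level U 2 (fA X) (d .B) := by
  have h1 := mem_U_left ⟨mk1 (L := L1) .A (.var 0), c .B, [(.var 0, c .u), (.var 0, c .v)]⟩
    (by simp [R1])
  have h2 := StepWith.root (J := Join (ReflTransGen (Level U 1))) _ h1 (fun _ => X) (by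
    intro p hp
    simp only [Rule.map, List.map_cons, List.map_nil, List.mem_cons, List.not_mem_nil,
      or_false] at hp
    rcases hp with rfl | rfl
    · refine ⟨d .u, X_u, ?_⟩
      have : (LHom.onTerm LHom.sumInl (c .u) : LU.Term ℕ).subst (fun _ => X) = d .u := by
        rw [onTerm_mk0]
        exact subst_mk0 (L := LU) _ _
      show ReflTransGen (Level U 1) ((LHom.onTerm LHom.sumInl (c .u) : LU.Term ℕ).subst
        (fun _ => X)) (d .u)
      rw [this]
    · refine ⟨d .v, X_v, ?_⟩
      have : (LHom.onTerm LHom.sumInl (c .v) : LU.Term ℕ).subst (fun _ => X) = d .v := by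
        rw [onTerm_mk0]
        exact subst_mk0 (L := LU) _ _
      show ReflTransGen (Level U 1) ((LHom.onTerm LHom.sumInl (c .v) : LU.Term ℕ).subst
        (fun _ => X)) (d .v)
      rw [this])
  have e1 : (Rule.map (LHom.sumInl : L1 →ᴸ LU)
      ⟨mk1 (L := L1) .A (.var 0), c .B, [(.var 0, c .u), (.var 0, c .v)]⟩).lhs.subst
      (fun _ => X) = fA X := by
    simp only [Rule.map, onTerm_mk1, onTerm_var]
    exact subst_mk1 (L := LU) _ _ _
  have e2 : (Rule.map (LHom.sumInl : L1 →ᴸ LU)
      ⟨mk1 (L := L1) .A (.var 0), c .B, [(.var 0, c .u), (.var 0, c .v)]⟩).rhs.subst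
      (fun _ => X) = d .B := by
    simp only [Rule.map, onTerm_mk0]
    exact subst_mk0 (L := LU) _ _
  rw [e1, e2] at h2
  exact h2

lemma not_UN_U : ¬ UN U := by
  intro h
  have hB : IsNF U (d .B) := nf_const .B (by
    intro ρ hρ
    simp only [R1, Set.mem_insert_iff, Set.mem_singleton_iff] at hρ
    rcases hρ with rfl | rfl | rfl | rfl | rfl | rfl | rfl | rfl | rfl <;> simp)
  have hC : IsNF U (d .C) := nf_const .C (by
    intro ρ hρ
    simp only [R1, Set.mem_insert_iff, Set.mem_singleton_iff] at hρ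
    rcases hρ with rfl | rfl | rfl | rfl | rfl | rfl | rfl | rfl | rfl <;> simp)
  have h1 := h _ _ hB hC (EqvGen.trans _ _ _ (EqvGen.symm _ _ (EqvGen.rel _ _ ⟨2, step_B⟩))
    (EqvGen.rel _ _ ⟨1, step_C⟩))
  have h2 := congrArg (fun t => Option.bind (head t) projL) h1
  have h3 : (some ⟨0, F1.B⟩ : Option (Σ k, L1.Functions k)) = some ⟨0, F1.C⟩ := h2
  simp at h3

/-- UN is not a modular property of join conditional term rewriting systems: there are finite
join CTRSs `R` and `S` without extra variables (`S` even unconditional) over two signatures,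
each with unique normal forms, whose disjoint union (over the disjoint union of the signatures)
does not have unique normal forms. -/
theorem result : ∃ (L L' : FirstOrder.Language.{0, 0}) (R : CTRS L) (S : CTRS L'),
    R.rules.Finite ∧ S.rules.Finite ∧ NoExtraVars R ∧ NoExtraVars S ∧
    (∀ ρ ∈ S.rules, ρ.conds = []) ∧
    UN R ∧ UN S ∧ ¬ UN (R.union S) := by
  refine ⟨L1, L2, R1, R2, ?_, ?_, ?_, ?_, ?_, UN_R1, UN_R2, not_UN_U⟩
  · simp only [R1]
    exact Set.toFinite _
  · simp only [R2]
    exact Set.toFinite _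
  · intro ρ hρ
    simp only [R1, Set.mem_insert_iff, Set.mem_singleton_iff] at hρ
    rcases hρ with rfl | rfl | rfl | rfl | rfl | rfl | rfl | rfl | rfl <;>
      simp [mk0, mk1, Term.varFinset]
  · intro ρ hρ
    simp only [R2, Set.mem_insert_iff, Set.mem_singleton_iff] at hρ
    rcases hρ with rfl | rfl
    · refine ⟨?_, by simp⟩
      intro x hx
      simp only [Term.varFinset, Finset.mem_singleton] at hx
      subst hx
      simp only [mk3, Term.varFinset, Finset.mem_biUnion, Finset.mem_univ, true_and]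
      exact ⟨0, by simp [Term.varFinset]⟩
    · refine ⟨?_, by simp⟩
      intro x hx
      simp only [Term.varFinset, Finset.mem_singleton] at hx
      subst hx
      simp only [mk3, Term.varFinset, Finset.mem_biUnion, Finset.mem_univ, true_and]
      exact ⟨2, by simp [Term.varFinset]⟩
  · intro ρ hρ
    simp only [R2, Set.mem_insert_iff, Set.mem_singleton_iff] at hρ
    rcases hρ with rfl | rfl <;> rfl

end Pool.Agent.Results.MP_a6fba8_lc.NotModular
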